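import Pool.Agent.MP_856573_co.H74.Bas

/-! The path theorem in the cases that are settled by cutting the boundary path once. -/

namespace Pool.Agent.MP_856573_co.H74

open Set
open Pool.Agent.MP_31805c_co.H93 (Conn)

namespace Ct

variable {V : Type} [Fintype V] [DecidableEq V] {G : SimpleGraph V} {U : Set V}
  {A B s0 s1 s2 t : V} {q : ℕ → V} {m j : ℕ}

theorem s0U (fr : Fr G U A B {s0} {s1} {s2}) : s0 ∉ U := disjoint_singleton_left.1 fr.d0

theorem dSU (fr : Fr G U A B {s0} {s1} {s2}) : Disjoint ({s1, s2} : Set V) U := by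
  rw [disjoint_left]
  rintro _ (rfl | rfl)
  exacts [disjoint_singleton_left.1 fr.d1, disjoint_singleton_left.1 fr.d2]

theorem cS (fr : Fr G U A B {s0} {s1} {s2}) : Cn G ({s1, s2} : Set V) := by
  rcases fr.d12 with h | h
  · obtain rfl : s1 = s2 := singleton_injective h
    rw [pair_eq_singleton]
    exact cn_single _
  · exact (cn_single s1).union (cn_single s2) h.2

theorem dS0 (fr : Fr G U A B {s0} {s1} {s2}) : Disjoint ({s1, s2} : Set V) {s0} := by
  rw [disjoint_left]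
  rintro _ (rfl | rfl) h
  · exact disjoint_left.1 fr.d01 h rfl
  · exact disjoint_left.1 fr.d02 h rfl

theorem aS0 (fr : Fr G U A B {s0} {s1} {s2}) : SA G ({s1, s2} : Set V) {s0} :=
  ⟨s1, Or.inl rfl, s0, rfl, (sa_single.1 fr.e1).symm⟩

omit [Fintype V] [DecidableEq V] in
theorem sq (bd : Bd G U A B s1 s2 q m j) {i : ℕ} (hi : i ≤ m) :
    SA G ({s1, s2} : Set V) {q i} := by
  rcases le_total i j with h | h
  · exact ⟨s1, Or.inl rfl, _, rfl, bd.l i h⟩
  · exact ⟨s2, Or.inr rfl, _, rfl, bd.r i h hi⟩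

omit [Fintype V] [DecidableEq V] in
theorem sS (bd : Bd G U A B s1 s2 q m j) {u : V} (hu : u ∈ U)
    (h : SA G ({s1, s2} : Set V) {u}) : ∃ i ≤ m, q i = u := by
  obtain ⟨s, rfl | rfl, _, rfl, h⟩ := h
  · obtain ⟨i, h1, h2, -⟩ := bd.l' _ hu h
    exact ⟨i, h1, h2⟩
  · obtain ⟨i, h1, h2, -⟩ := bd.r' _ hu h
    exact ⟨i, h1, h2⟩

omit [Fintype V] [DecidableEq V] in
theorem tc_q (bd : Bd G U A B s1 s2 q m j) {E : Set V} {i : ℕ} (hi : i ≤ m) :
    tc G E {s1, s2} (q i) = 1 := by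
  obtain ⟨s, hs, _, rfl, h⟩ := sq bd hi
  exact tc_pos ⟨s, hs, _, Conn.refl _ _, h.symm⟩

omit [DecidableEq V] in
/-- A component does not see both corners if the junction is on the path. -/
theorem junc (bd : Bd G U A B s1 s2 q m j) {P : Set V} (hA : A ∈ P) (hB : B ∈ P)
    (hj : s1 = s2 ∨ q j ∈ P) {v : V} (hv : v ∈ U \ P)
    (h3 : (At G (U \ P) P v).ncard + tc G (U \ P) {s1, s2} v ≤ 3) :
    tc G (U \ P) {s1} v + tc G (U \ P) ({s2} \ {s1}) v ≤ tc G (U \ P) {s1, s2} v := by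
  have m1 : tc G (U \ P) {s1} v ≤ tc G (U \ P) {s1, s2} v :=
    tc_mono fun h => h.mono (At.mono Subset.rfl (by simp))
  have m2 : tc G (U \ P) ({s2} \ {s1}) v ≤ tc G (U \ P) {s1, s2} v :=
    tc_mono fun h => h.mono (At.mono Subset.rfl fun x hx => Or.inr hx.1)
  by_cases h1 : (At G (U \ P) {s1} v).Nonempty
  swap
  · rw [tc_neg h1]
    omega
  by_cases h2 : (At G (U \ P) ({s2} \ {s1}) v).Nonempty
  swap
  · rw [tc_neg h2]
    omega
  exfalso
  rw [tc_pos (h1.mono (At.mono Subset.rfl (by simp)))] at h3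
  obtain ⟨_, rfl, u, hu, a1⟩ := h1
  obtain ⟨_, ⟨rfl, hne⟩, w, hw, a2⟩ := h2
  have hne' : ¬ _ = _ := fun e => hne (Eq.symm e)
  have hjP := hj.resolve_left hne'
  obtain ⟨a, ha, rfl, ha'⟩ := bd.l' u (hu.mem hv).1 a1.symm
  obtain ⟨b, hb, rfl, hb'⟩ := bd.r' w (hw.mem hv).1 a2.symm
  have ha2 := ha'.resolve_right hne'
  have hb2 := hb'.resolve_right hne'
  have hjm := bd.jm
  obtain ⟨x, y, -, h4, h5, h6, h7, h8⟩ := bd.pa.two_att (U := U) (P := P) (Nat.zero_le a) ha2 hjm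
    (fun i _ _ => bd.sub i (by omega)) (bd.q0 ▸ hA) hjP (hu.mem hv).2
  obtain ⟨x', y', h9, h10, h11, h12, -, h13⟩ := bd.pa.two_att (U := U) (P := P) hb2 hb le_rfl
    (fun i _ hi => bd.sub i hi) hjP (bd.qm ▸ hB) (hw.mem hv).2
  rw [← At.conn hu] at h7 h8
  rw [← At.conn hw] at h13
  have := (two_lt_ncard (toFinite _)).2 ⟨_, h7, _, h8, _, h13,
    fun e => by have := bd.pa.inj _ (by omega) _ (by omega) e; omega,
    fun e => by have := bd.pa.inj _ (by omega) _ (by omega) e; omega,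
    fun e => by have := bd.pa.inj _ (by omega) _ (by omega) e; omega⟩
  omega

omit [DecidableEq V] in
theorem at_ins {E P : Set V} {z v : V} (h : z ∉ P) :
    (At G E ({z} ∪ P) v).ncard = tc G E {z} v + (At G E P v).ncard := by
  rw [At.union, ncard_union_eq ((disjoint_singleton_left.2 h).mono At.sub At.sub), tc_single]

/-- The first part of the boundary path is replaced by a path that absorbs the components. -/
theorem core (al : StmtAL) (tp : TP V U.ncard) (fr : Fr G U A B {s0} {s1} {s2})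
    (bd : Bd G U A B s1 s2 q m j) {k : ℕ} (hk : k < m)
    (hj : s1 = s2 ∨ j = 0 ∨ j = m ∨ j = k + 1) {P' E : Set V} (hE : E = (U \ q '' Iic k) \ P')
    (sub : P' ⊆ U \ q '' Iic k) (hp : HP G P' (q (k + 1)) B)
    (hb : ∀ v ∈ E, (At G E P' v).ncard + tc G E {s1, s2} v + tc G E {s0} v +
      tc G E (q '' Iic k) v ≤ 3)
    (ht0 : t ∈ E → ¬ (At G E (q '' Iic k) t).Nonempty →
      (At G E P' t).ncard + tc G E {s1, s2} t + tc G E {s0} t ≤ 2 ∨ (At G E P' t).ncard ≤ 1)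
    (ht1 : t ∈ E → (At G E (q '' Iic k) t).Nonempty → (At G E ({s0} ∪ P') t).ncard ≤ 1)
    (ht2 : t ∈ q '' Iic k ∨ (t ∈ E ∧ (At G E (q '' Iic k) t).Nonempty) →
      (t ∉ q '' Iic k ∧ (At G E ({s0} ∪ P') t).Nonempty) ∨
      ∀ i ≤ k, (t = q i ∨ (t ∉ q '' Iic k ∧ q i ∈ At G E (q '' Iic k) t)) →
        (∀ i' < i, ¬ (t = q i' ∨ (t ∉ q '' Iic k ∧ q i' ∈ At G E (q '' Iic k) t))) →
        ∀ v ∈ E, (At G E (q '' Iic i) v).Nonempty → (At G E (q '' Ioc i k) v).Nonempty →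
          (At G E ({s0} ∪ P') v).ncard ≤ 1) :
    Good G U A B {s0} {s1} {s2} t := by
  have h0U := s0U fr
  have h0P : s0 ∉ P' := fun h => h0U (sub h).1
  obtain ⟨o, r, po, o0, or', hO⟩ := (hp_single s0).join hp.symm (disjoint_singleton_left.2 h0P)
    (sa_single.1 fr.b0)
  set P0 := q '' Iic k with hP0
  set D := {v | v ∈ E ∧ (At G E P0 v).Nonempty} with hD
  have P0U : P0 ⊆ U := by
    rintro _ ⟨i, hi, rfl⟩
    exact bd.sub i (le_trans hi hk.le)
  have mE : ∀ x, x ∈ E ↔ (x ∈ U ∧ x ∉ P0) ∧ x ∉ P' := fun x => by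
    rw [hE]
    rfl
  have DE : D ⊆ E := fun _ h => h.1
  have Dcl : ∀ a ∈ D, ∀ b ∈ E, G.Adj a b → b ∈ D := fun a ha b hb' hab =>
    ⟨hb', At.conn (Conn.adj hab ha.1 hb') ▸ ha.2⟩
  have atD : ∀ X, ∀ v ∈ D, At G D X v = At G E X v := fun X v hv => (At.closed DE Dcl hv).symm
  have WD : (P0 ∪ D) \ P0 = D := by
    ext x
    exact ⟨fun h => h.1.resolve_left h.2, fun h => ⟨Or.inr h, ((mE x).1 h.1).1.2⟩⟩
  have WU : P0 ∪ D ⊆ U := union_subset P0U fun x hx => ((mE x).1 hx.1).1.1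
  have WP : ∀ x ∈ P', x ∉ P0 ∪ D := by
    rintro x hx (h | h)
    · exact (sub hx).2 h
    · exact ((mE x).1 h.1).2 hx
  have qD : ∀ i ≤ m, q i ∉ D := by
    intro i hi h
    have h1 := (mE _).1 h.1
    have hki : k + 1 ≤ i := by
      by_contra hc
      exact h1.1.2 ⟨i, show i ≤ k by omega, rfl⟩
    obtain ⟨x, y, h2, h3, h4, h5, h6, h7⟩ := bd.pa.two_att (U := U \ P0) (P := P') hki hi le_rfl
      (fun a h2 h3 => ⟨bd.sub a h3, fun h4 => by
        have : a ≤ k := (bd.pa.mem (fun b hb => le_trans hb hk.le) h3).1 h4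
        omega⟩) hp.left (bd.qm ▸ hp.right) h1.2
    rw [← hE] at h6 h7
    have h8 := (one_lt_ncard (toFinite _)).2 ⟨_, h6, _, h7,
      fun e => by have := bd.pa.inj _ (by omega) _ (by omega) e; omega⟩
    have h9 := hb _ h.1
    rw [tc_q bd hi, tc_pos h.2] at h9
    omega
  have oO : ∀ i ≤ r, o i = s0 ∨ o i ∈ P' := fun i hi => by
    have : o i ∈ {s0} ∪ P' := hO ▸ ⟨i, hi, rfl⟩
    exact this
  have ah : AH G (P0 ∪ D) q k o r {s1, s2} t :=
    { mac := fr.mac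
      pq := bd.pa.le hk.le
      po := po
      qW := fun i hi => Or.inl ⟨i, hi, rfl⟩
      oW := fun i hi h => by
        rcases oO i hi with e | e
        · exact h0U (e ▸ WU h)
        · exact WP _ e h
      oS := fun i hi h => by
        rcases oO i hi with e | e
        · exact disjoint_left.1 (dS0 fr) h e
        · exact disjoint_left.1 (dSU fr) h (sub e).1
      dS := (dSU fr).mono_right WU
      cS := cS fr
      sq := fun i hi => sq bd (le_trans hi hk.le)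
      so := o0 ▸ aS0 fr
      l0 := by
        rw [o0, bd.q0]
        exact (sa_single.1 fr.a0).symm
      lm := or' ▸ bd.pa.adj k hk
      sS := fun u hu h => by
        obtain ⟨i, hi, rfl⟩ := sS bd (WU hu) h
        exact hu.resolve_right (qD i hi)
      two := fun v hv => by
        rw [← hP0, WD] at hv ⊢
        have h1 := hb v hv.1
        rw [tc_pos hv.2] at h1
        rw [atD _ v hv, ← hO, at_ins h0P]
        omega
      rt := fun v _ _ x y h1 h2 _ _ => ⟨r, by omega, le_rfl, or' ▸ sq bd hk⟩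
      t1 := fun hv => by
        rw [← hP0, WD] at hv ⊢
        rw [atD _ t hv, ← hO]
        exact ht1 hv.1 hv.2
      t2 := fun hv => by
        unfold Loc
        rw [← hP0, WD, ← hO]
        have hl : t ∉ P0 → ∀ X, At G D X t = At G E X t := fun h X =>
          atD X t (hv.resolve_left h)
        rcases ht2 hv with h | h
        · exact Or.inl ⟨h.1, hl h.1 _ ▸ h.2⟩
        · refine Or.inr fun i hi h1 h2 v hv' h3 h4 => ?_
          rw [atD _ v hv'] at h3 h4 ⊢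
          refine h i hi (h1.elim Or.inl fun h5 => Or.inr ⟨h5.1, hl h5.1 _ ▸ h5.2⟩)
            (fun i' hi' h5 => h2 i' hi' (h5.elim Or.inl fun h6 => Or.inr ⟨h6.1, ?_⟩)) v hv'.1 h3 h4
          rw [hl h6.1]
          exact h6.2 }
  obtain ⟨P, PW, hP, hc⟩ := al V G (P0 ∪ D) q k o r {s1, s2} t _ tp
    (ncard_lt_ncard ⟨WU, fun h => WP B hp.right (h fr.hB)⟩ (toFinite _)) ah
  rw [← hO] at hc
  have hPP : HP G (P ∪ P') A B :=
    bd.q0 ▸ hP.join hp (disjoint_left.2 fun x h1 h2 => WP x h2 (PW h1)) (bd.pa.adj k hk)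
  have key : ∀ v ∈ U \ (P ∪ P'), (At G (U \ (P ∪ P')) (P ∪ P') v).ncard +
      tc G (U \ (P ∪ P')) {s1, s2} v + tc G (U \ (P ∪ P')) {s0} v ≤ 3 ∧
      (v = t → (At G (U \ (P ∪ P')) (P ∪ P') v).ncard +
        tc G (U \ (P ∪ P')) {s1, s2} v + tc G (U \ (P ∪ P')) {s0} v ≤ 2 ∨
        (At G (U \ (P ∪ P')) (P ∪ P') v).ncard ≤ 1) := by
    intro v hv
    by_cases hW : v ∈ P0 ∪ D
    · have hv' : v ∈ (P0 ∪ D) \ P := ⟨hW, fun h => hv.2 (Or.inl h)⟩
      have e : ∀ X, At G (U \ (P ∪ P')) X v = At G ((P0 ∪ D) \ P) X v := fun X =>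
        At.closed (fun x hx => ⟨WU hx.1, fun h => h.elim hx.2 fun h' => WP x h' hx.1⟩)
          (fun a ha b hb' hab => ⟨by
            by_cases h : b ∈ P0
            · exact Or.inl h
            · have hbE : b ∈ E := (mE b).2 ⟨⟨hb'.1, h⟩, fun h' => hb'.2 (Or.inr h')⟩
              rcases ha.1 with h1 | h1
              · exact Or.inr ⟨hbE, a, h1, b, Conn.refl _ _, hab.symm⟩
              · exact Or.inr (Dcl a h1 b hbE hab), fun h => hb'.2 (Or.inl h)⟩) hv'
      have h1 := hc v hv'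
      rw [at_ins h0P] at h1
      have h2 := ncard_union_le (At G ((P0 ∪ D) \ P) P v) (At G ((P0 ∪ D) \ P) P' v)
      unfold tc at h1 ⊢
      rw [e, e, e, At.union]
      exact ⟨by omega, fun h => Or.inl (by have := h1.2 h; omega)⟩
    · have hvE : v ∈ E := (mE v).2 ⟨⟨hv.1, fun h => hW (Or.inl h)⟩, fun h => hv.2 (Or.inr h)⟩
      have hv' : v ∈ E \ D := ⟨hvE, fun h => hW (Or.inr h)⟩
      have cl : ∀ a ∈ E \ D, ∀ b ∈ E, G.Adj a b → b ∈ E \ D := fun a ha b hb' hab =>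
        ⟨hb', fun h => ha.2 (Dcl b h a ha.1 hab.symm)⟩
      have nW : ∀ a ∈ E \ D, ∀ b ∈ P0 ∪ D, ¬ G.Adj a b := by
        rintro a ha b (h | h) hab
        · exact ha.2 ⟨ha.1, b, h, a, Conn.refl _ _, hab⟩
        · exact ha.2 (Dcl b h a ha.1 hab.symm)
      have e : ∀ X, At G (U \ (P ∪ P')) X v = At G E X v := fun X =>
        (At.closed (W := U \ (P ∪ P')) (W' := E \ D) (fun x hx => ⟨((mE x).1 hx.1).1.1, fun h => h.elim
            (fun h' => (PW h').elim ((mE x).1 hx.1).1.2 hx.2) ((mE x).1 hx.1).2⟩)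
          (fun a ha b hb' hab => cl a ha b ((mE b).2
            ⟨⟨hb'.1, fun h => nW a ha b (Or.inl h) hab⟩, fun h => hb'.2 (Or.inr h)⟩) hab)
          hv').trans (At.closed sdiff_subset cl hv').symm
      have e0 : At G E P v = ∅ := by
        rw [eq_empty_iff_forall_notMem]
        rintro x ⟨hx, u, hu, hux⟩
        exact nW u ((conn_closed cl hv' hu).mem hv') x (PW hx) hux
      have h1 := hb v hvE
      unfold tc at h1 ht0 ⊢
      rw [e, e, e, At.union, e0, empty_union]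
      refine ⟨by omega, fun h => ?_⟩
      subst h
      exact ht0 hvE fun h => hv'.2 ⟨hvE, h⟩
  refine ⟨P ∪ P', union_subset (PW.trans WU) (sub.trans sdiff_subset), hPP, fun v hv => ?_⟩
  have h1 := key v hv
  have h2 := junc bd hPP.left hPP.right (hj.imp_right fun h => by
    rcases h with rfl | rfl | rfl
    · exact bd.q0 ▸ hPP.left
    · exact bd.qm ▸ hPP.right
    · exact Or.inr hp.left) hv (by omega)
  unfold cnt
  exact ⟨by omega, fun h => (h1.2 h).imp_left fun h3 => by omega⟩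

omit [DecidableEq V] in
theorem card_lt (bd : Bd G U A B s1 s2 q m j) (k : ℕ) : (U \ q '' Iic k).ncard < U.ncard :=
  ncard_lt_ncard ⟨sdiff_subset, fun h =>
    (h (bd.sub 0 (Nat.zero_le _))).2 ⟨0, Nat.zero_le _, rfl⟩⟩ (toFinite _)

omit [Fintype V] [DecidableEq V] in
theorem qU (bd : Bd G U A B s1 s2 q m j) {k a : ℕ} (h1 : k + 1 ≤ a) (h2 : a ≤ m) :
    q a ∈ U \ q '' Iic k :=
  ⟨bd.sub a h2, fun h => by
    have : a ≤ k := (bd.pa.mem (fun b (hb : b ≤ k) => by omega) h2).1 h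
    omega⟩

/-- The frame of the ground set without the first part of the boundary path. -/
theorem frame (fr : Fr G U A B {s0} {s1} {s2}) (bd : Bd G U A B s1 s2 q m j) {k : ℕ}
    (hk : k + 1 < m) {Z1 Z2 : Set V} (h1 : Z1 ⊆ {s0} ∪ q '' Iic k) (h2 : Z2 ⊆ {s0} ∪ q '' Iic k)
    (d12 : Z1 = Z2 ∨ (Disjoint Z1 Z2 ∧ SA G Z1 Z2)) (c1 : Cn G Z1) (c2 : Cn G Z2)
    (hq : q k ∈ Z1) (h0 : s0 ∈ Z2) : Fr G (U \ q '' Iic k) (q (k + 1)) B {s1, s2} Z1 Z2 := by
  have d1 : Disjoint ({s0} ∪ q '' Iic k) (U \ q '' Iic k) := by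
    rw [disjoint_left]
    rintro x (rfl | h) hx
    exacts [s0U fr hx.1, hx.2 h]
  have d2 : Disjoint ({s1, s2} : Set V) ({s0} ∪ q '' Iic k) := by
    refine disjoint_union_right.2 ⟨dS0 fr, (dSU fr).mono_right ?_⟩
    rintro _ ⟨i, hi, rfl⟩
    exact bd.sub i (by have : i ≤ k := hi; omega)
  exact
    { mac := fr.mac
      hA := qU bd le_rfl hk.le
      hB := bd.qm ▸ qU bd hk.le le_rfl
      ne := fun e => by
        have := bd.pa.inj _ hk.le _ le_rfl (e.trans bd.qm.symm)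
        omega
      conn := bd.qm ▸ bd.pa.conn hk.le le_rfl fun i h3 h4 => qU bd h3 h4
      d0 := (dSU fr).mono_right sdiff_subset
      d1 := d1.mono_left h1
      d2 := d1.mono_left h2
      d01 := d2.mono_right h1
      d02 := d2.mono_right h2
      d12 := d12
      c0 := cS fr
      c1 := c1
      c2 := c2
      a0 := sq bd hk.le
      b0 := bd.qm ▸ sq bd le_rfl
      a1 := ⟨_, hq, _, rfl, bd.pa.adj k (by omega)⟩
      b2 := ⟨_, h0, _, rfl, sa_single.1 fr.b0⟩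
      e1 := (sq bd (show k ≤ m by omega)).mono Subset.rfl (singleton_subset_iff.2 hq)
      e2 := (aS0 fr).mono Subset.rfl (singleton_subset_iff.2 h0) }

omit [Fintype V] [DecidableEq V] in
theorem last_tc (bd : Bd G U A B s1 s2 q m j) {k : ℕ} (hk : k + 1 = m) {v : V}
    (hv : v ∈ (U \ q '' Iic k) \ {B}) : tc G ((U \ q '' Iic k) \ {B}) {s1, s2} v = 0 := by
  refine tc_neg ?_
  rintro ⟨s, hs, u, hu, a⟩
  have h1 := hu.mem hv
  obtain ⟨i, hi, rfl⟩ := sS bd h1.1.1 ⟨s, hs, u, rfl, a.symm⟩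
  rcases Nat.lt_or_ge k i with h | h
  · exact h1.2 (by rw [show i = m by omega, bd.qm]; rfl)
  · exact h1.1.2 ⟨i, h, rfl⟩

omit [Fintype V] [DecidableEq V] in
theorem at_one {E : Set V} {z v : V} : (At G E {z} v).ncard ≤ 1 := tc_single ▸ tc_le

/-- The second part of the path when the target plays no role. -/
theorem plain (tp : TP V U.ncard) (fr : Fr G U A B {s0} {s1} {s2})
    (bd : Bd G U A B s1 s2 q m j) {k : ℕ} (hk : k < m) :
    ∃ P' ⊆ U \ q '' Iic k, HP G P' (q (k + 1)) B ∧ ∀ v ∈ (U \ q '' Iic k) \ P',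
      (At G ((U \ q '' Iic k) \ P') P' v).ncard + tc G ((U \ q '' Iic k) \ P') {s1, s2} v +
        tc G ((U \ q '' Iic k) \ P') {s0} v + tc G ((U \ q '' Iic k) \ P') (q '' Iic k) v ≤ 3 := by
  rcases Nat.lt_or_ge (k + 1) m with h | h
  · have h0 : s0 ∉ q '' Iic k := by
      rintro ⟨i, hi, e⟩
      exact s0U fr (e ▸ bd.sub i (le_trans hi hk.le))
    obtain ⟨P', h1, h2, h3⟩ := tp G _ _ _ _ _ _ s0 (card_lt bd k)
      (frame fr bd h subset_union_right subset_union_left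
        (Or.inr ⟨disjoint_singleton_right.2 h0, q 0, ⟨0, Nat.zero_le _, rfl⟩, s0, rfl,
          bd.q0 ▸ (sa_single.1 fr.a0).symm⟩)
        (bd.pa.cn ordConnected_Iic fun i hi => le_trans hi hk.le) (cn_single _)
        ⟨k, le_refl k, rfl⟩ rfl) (Or.inl fun h => s0U fr h.1)
    refine ⟨P', h1, h2, fun v hv => ?_⟩
    have h4 := (h3 v hv).1
    unfold cnt at h4
    rw [sdiff_eq_left.2 (disjoint_singleton_left.2 h0)] at h4
    omega
  · have e : k + 1 = m := by omega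
    refine ⟨{B}, singleton_subset_iff.2 (bd.qm ▸ qU bd hk le_rfl), ?_, fun v hv => ?_⟩
    · rw [e, bd.qm]
      exact hp_single B
    · have h1 := last_tc bd e hv
      have h2 := at_one (G := G) (E := (U \ q '' Iic k) \ {B}) (z := B) (v := v)
      have h3 := tc_le (G := G) (W := (U \ q '' Iic k) \ {B}) (Z := {s0}) (v := v)
      have h4 := tc_le (G := G) (W := (U \ q '' Iic k) \ {B}) (Z := q '' Iic k) (v := v)
      omega

theorem m_pos (fr : Fr G U A B {s0} {s1} {s2}) (bd : Bd G U A B s1 s2 q m j) : 0 < m :=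
  Nat.pos_of_ne_zero fun e => fr.ne (by rw [← bd.q0, ← bd.qm, e])

/-- No target. -/
theorem caseOut (al : StmtAL) (tp : TP V U.ncard) (fr : Fr G U A B {s0} {s1} {s2})
    (bd : Bd G U A B s1 s2 q m j) (ht : t ∉ U) : Good G U A B {s0} {s1} {s2} t := by
  have hm := m_pos fr bd
  have hjm := bd.jm
  obtain ⟨k, hk, hj⟩ : ∃ k < m, j = 0 ∨ j = k + 1 := by
    rcases Nat.eq_zero_or_pos j with h | h
    · exact ⟨0, hm, Or.inl h⟩
    · exact ⟨j - 1, by omega, Or.inr (by omega)⟩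
  obtain ⟨P', h1, h2, h3⟩ := plain tp fr bd hk
  refine core al tp fr bd hk (by tauto) rfl h1 h2 h3 (fun h => (ht h.1.1).elim)
    (fun h => (ht h.1.1).elim) fun h => (ht ?_).elim
  rcases h with ⟨i, hi, rfl⟩ | h
  · exact bd.sub i (le_trans hi hk.le)
  · exact h.1.1.1

/-- The target lies on the boundary path of a square. -/
theorem caseOn (al : StmtAL) (tp : TP V U.ncard) (fr : Fr G U A B {s0} {s1} {s2})
    (bd : Bd G U A B s1 s2 q m j) (e : s1 = s2) (ht : t ∈ q '' Iic m) :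
    Good G U A B {s0} {s1} {s2} t := by
  obtain ⟨i, hi, rfl⟩ := ht
  rcases i with _ | k
  · obtain ⟨P, h1, h2, h3⟩ := caseOut al tp fr bd (s0U fr)
    exact ⟨P, h1, h2, fun v hv => ⟨(h3 v hv).1, fun h => (hv.2 (h ▸ bd.q0 ▸ h2.left)).elim⟩⟩
  · have hk : k < m := hi
    obtain ⟨P', h1, h2, h3⟩ := plain tp fr bd hk
    refine core al tp fr bd hk (Or.inl e) rfl h1 h2 h3 (fun h => (h.2 h2.left).elim)
      (fun h => (h.2 h2.left).elim) fun h => ?_
    rcases h with h | h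
    · exact ((qU bd le_rfl hk).2 h).elim
    · exact (h.1.2 h2.left).elim

/-- The target hangs on the boundary path of a square and does not see the corner `s0`. -/
theorem caseHang (al : StmtAL) (tp : TP V U.ncard) (fr : Fr G U A B {s0} {s1} {s2})
    (nh : NH G U A B) (bd : Bd G U A B s1 s2 q m j) (e : s1 = s2) (htU : t ∈ U)
    (htQ : t ∉ q '' Iic m) (h0 : At G (U \ q '' Iic m) {s0} t = ∅) :
    Good G U A B {s0} {s1} {s2} t := by
  classical
  set Q := q '' Iic m with hQ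
  have htH : t ∈ U \ Q := ⟨htU, htQ⟩
  obtain ⟨i0, hi0, hi1, hi2⟩ : ∃ i, 0 < i ∧ i ≤ m ∧ q i ∈ At G (U \ Q) Q t := by
    obtain ⟨x, hx, hxA, hc⟩ := nh A fr.hA t htU fun h => htQ ⟨0, Nat.zero_le _, bd.q0.trans h.symm⟩
    obtain rfl := hx.resolve_left hxA
    obtain ⟨a, _, h1, -, h2, ⟨i, hi, rfl⟩, h3⟩ :=
      conn_exit (X := Q) hc htQ ⟨m, le_refl m, bd.qm⟩
    refine ⟨i, Nat.pos_of_ne_zero fun h => h2.2 ?_, hi, ⟨i, hi, rfl⟩, a,
      h1.mono (sdiff_subset_sdiff_left sdiff_subset), h3⟩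
    rw [h, bd.q0]
    rfl
  have g1 := Nat.findGreatest_spec (P := fun i => q i ∈ At G (U \ Q) Q t) hi1 hi2
  have g2 := Nat.le_findGreatest (P := fun i => q i ∈ At G (U \ Q) Q t) hi1 hi2
  have g3 := Nat.findGreatest_le (P := fun i => q i ∈ At G (U \ Q) Q t) m
  have g4 : ∀ i, Nat.findGreatest (fun i => q i ∈ At G (U \ Q) Q t) m < i → i ≤ m →
      q i ∉ At G (U \ Q) Q t := fun i h1 h2 =>
    Nat.findGreatest_is_greatest (P := fun i => q i ∈ At G (U \ Q) Q t) h1 h2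
  obtain ⟨k, hk'⟩ : ∃ k, Nat.findGreatest (fun i => q i ∈ At G (U \ Q) Q t) m = k + 1 :=
    ⟨_, (Nat.succ_pred_eq_of_pos (by omega)).symm⟩
  rw [hk'] at g1 g3 g4
  have hk : k < m := g3
  obtain ⟨P', h1, h2, h3⟩ := plain tp fr bd hk
  -- the only exit of the component of the target
  have ex : ∀ a, Conn G (U \ Q) t a → ∀ b ∈ U \ q '' Iic k, G.Adj a b →
      Conn G (U \ Q) t b ∨ b = q (k + 1) := by
    intro a ha b hb hab
    by_cases hbQ : b ∈ Q
    · obtain ⟨i, hi, rfl⟩ := hbQ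
      have h4 : ¬ k + 1 < i := fun h => g4 i h hi ⟨⟨i, hi, rfl⟩, a, ha, hab⟩
      have h5 : ¬ i ≤ k := fun h => hb.2 ⟨i, h, rfl⟩
      exact Or.inr (by rw [show i = k + 1 by omega])
    · exact Or.inl (ha.trans (Conn.adj hab (ha.mem htH) ⟨hb.1, hbQ⟩))
  have miss : ∀ x ∈ P', ¬ Conn G (U \ Q) t x := by
    obtain ⟨p, n, hp, p0, pn, rfl⟩ := h2
    rintro _ ⟨a, ha, rfl⟩ hc
    have : ∀ b, a ≤ b → b ≤ n → Conn G (U \ Q) t (p b) := by
      intro b hab
      induction b, hab using Nat.le_induction with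
      | base => exact fun _ => hc
      | succ b _ ih =>
        intro hb
        refine (ex _ (ih (by omega)) _ (h1 ⟨b + 1, hb, rfl⟩) (hp.adj b hb)).resolve_right
          fun h => ?_
        have := hp.inj _ hb 0 (Nat.zero_le _) (h.trans p0.symm)
        omega
    exact ((this n ha le_rfl).mem htH).2 ⟨m, le_refl m, bd.qm.trans pn.symm⟩
  have inE : ∀ x, Conn G (U \ Q) t x → x ∈ (U \ q '' Iic k) \ P' := fun x hx =>
    ⟨⟨(hx.mem htH).1, fun h => (hx.mem htH).2 (image_mono (Iic_subset_Iic.2 hk.le) h)⟩,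
      fun h => miss x h hx⟩
  have toH : ∀ x, Conn G ((U \ q '' Iic k) \ P') t x → Conn G (U \ Q) t x := fun x hx =>
    conn_ind _ hx (Conn.refl _ _) fun a _ b hb _ hab ha =>
      (ex a ha b hb.1 hab).resolve_right fun h => hb.2 (h ▸ h2.left)
  have a1 : At G ((U \ q '' Iic k) \ P') ({s0} ∪ P') t ⊆ {q (k + 1)} := by
    rintro x ⟨rfl | hx, u, hu, hux⟩
    · exact absurd (show _ ∈ At G (U \ Q) {x} t from ⟨rfl, u, toH u hu, hux⟩) (by
        rw [h0]
        exact id)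
    · exact (ex u (toH u hu) x (h1 hx) hux).resolve_left (miss x hx)
  have a2 : (At G ((U \ q '' Iic k) \ P') ({s0} ∪ P') t).ncard ≤ 1 :=
    (ncard_le_ncard a1 (toFinite _)).trans (ncard_singleton _).le
  refine core al tp fr bd hk (Or.inl e) rfl h1 h2 h3 (fun _ _ => Or.inr ((ncard_le_ncard
    (At.mono Subset.rfl subset_union_right) (toFinite _)).trans a2)) (fun _ _ => a2) fun _ =>
    Or.inl ⟨(inE t (Conn.refl _ _)).1.2, q (k + 1), Or.inr h2.left, ?_⟩
  obtain ⟨-, u, hu, hux⟩ := g1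
  exact ⟨u, (Conn.comp hu).mono inE, hux⟩

/-- The side of `s0` is empty. -/
theorem caseEmpty (al : StmtAL) (tp : TP V U.ncard) (fr : Fr G U A B {s0} {s1} {s2})
    (bd : Bd G U A B s1 s2 q m j) (h0 : ∀ u ∈ U, G.Adj s0 u → u = A ∨ u = B) :
    Good G U A B {s0} {s1} {s2} t := by
  classical
  have hm := m_pos fr bd
  have hjm := bd.jm
  have n0 : ∀ k P', B ∈ P' → ∀ v ∈ (U \ q '' Iic k) \ P',
      ¬ (At G ((U \ q '' Iic k) \ P') {s0} v).Nonempty := by
    rintro k P' hB v hv ⟨_, rfl, u, hu, a⟩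
    have h1 := hu.mem hv
    rcases h0 u h1.1.1 a.symm with rfl | rfl
    · exact h1.1.2 ⟨0, Nat.zero_le _, bd.q0⟩
    · exact h1.2 hB
  have n1 : ∀ k P', B ∈ P' → ∀ v ∈ (U \ q '' Iic k) \ P',
      At G ((U \ q '' Iic k) \ P') ({s0} ∪ P') v = At G ((U \ q '' Iic k) \ P') P' v := by
    intro k P' hB v hv
    rw [At.union, not_nonempty_iff_eq_empty.1 (n0 k P' hB v hv), empty_union]
  by_cases hj : j = 0 ∨ j = m
  · obtain ⟨k, e⟩ : ∃ k, k + 1 = m := ⟨m - 1, by omega⟩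
    have hk : k < m := by omega
    refine core al tp fr bd hk (by tauto) (P' := {B}) rfl
      (singleton_subset_iff.2 (bd.qm ▸ qU bd hk le_rfl)) (by rw [e, bd.qm]; exact hp_single B)
      (fun v hv => ?_) (fun _ _ => Or.inr at_one) (fun h _ => ?_)
      fun _ => Or.inr fun _ _ _ _ v hv _ _ => ?_
    · have h1 := last_tc bd e hv
      have h2 := at_one (G := G) (E := (U \ q '' Iic k) \ {B}) (z := B) (v := v)
      have h3 := tc_le (G := G) (W := (U \ q '' Iic k) \ {B}) (Z := {s0}) (v := v)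
      have h4 := tc_le (G := G) (W := (U \ q '' Iic k) \ {B}) (Z := q '' Iic k) (v := v)
      omega
    · rw [n1 k {B} rfl t h]
      exact at_one
    · rw [n1 k {B} rfl v hv]
      exact at_one
  obtain ⟨k, rfl⟩ : ∃ k, j = k + 1 := ⟨j - 1, by omega⟩
  have hk1 : k + 1 < m := by omega
  have hk : k < m := by omega
  have cz : ∀ i ≤ k, Cn G ({s0} ∪ q '' Iic i) := fun i hi =>
    (cn_single s0).union (bd.pa.cn ordConnected_Iic fun a (ha : a ≤ i) => by omega)
      ⟨s0, rfl, q 0, ⟨0, Nat.zero_le _, rfl⟩, bd.q0 ▸ sa_single.1 fr.a0⟩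
  by_cases hc : t ∈ U \ q '' Iic k ∧ Conn G (U \ q '' Iic k) t B
  · obtain ⟨P', h1, h2, h3⟩ := tp G _ _ _ _ _ _ t (card_lt bd k)
      (frame fr bd hk1 Subset.rfl Subset.rfl (Or.inl rfl) (cz k le_rfl) (cz k le_rfl)
        (Or.inr ⟨k, le_refl k, rfl⟩) (Or.inl rfl)) (Or.inr (Or.inl rfl))
    have h4 : ∀ v, tc G ((U \ q '' Iic k) \ P') (q '' Iic k) v ≤
        tc G ((U \ q '' Iic k) \ P') ({s0} ∪ q '' Iic k) v := fun v =>
      tc_mono fun h => h.mono (At.mono Subset.rfl subset_union_right)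
    unfold cnt at h3
    refine core al tp fr bd hk (by tauto) rfl h1 h2 (fun v hv => ?_) (fun hv _ => ?_)
      (fun hv h => ?_) fun hv => Or.inl ⟨hc.1.2, ?_⟩
    · have h5 := (h3 v hv).1
      have h6 := h4 v
      rw [tc_neg (n0 k P' h2.right v hv)]
      omega
    · have h5 := (h3 t hv).2 rfl
      rw [tc_neg (n0 k P' h2.right t hv)]
      omega
    · have h5 := (h3 t hv).2 rfl
      have h6 := h4 t
      rw [tc_pos h] at h6
      rw [n1 k P' h2.right t hv]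
      omega
    · obtain ⟨a, b, h5, -, -, h6, h7⟩ :=
        conn_exit (X := P') hc.2 (hv.resolve_left hc.1.2).1.2 h2.right
      exact ⟨b, Or.inr h6, a, h5, h7⟩
  -- the target is separated from `B` by the first part of the boundary path
  have fin : ∀ P' ⊆ U \ q '' Iic k, HP G P' (q (k + 1)) B → (∀ v ∈ (U \ q '' Iic k) \ P',
      (At G ((U \ q '' Iic k) \ P') P' v).ncard + tc G ((U \ q '' Iic k) \ P') {s1, s2} v +
        tc G ((U \ q '' Iic k) \ P') {s0} v + tc G ((U \ q '' Iic k) \ P') (q '' Iic k) v ≤ 3) →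
      (∀ i ≤ k, Loc G U q k t i → (∀ i' < i, ¬ Loc G U q k t i') →
        ∀ v ∈ (U \ q '' Iic k) \ P',
        (At G ((U \ q '' Iic k) \ P') (q '' Iic i) v).Nonempty →
        (At G ((U \ q '' Iic k) \ P') (q '' Ioc i k) v).Nonempty →
        (At G ((U \ q '' Iic k) \ P') P' v).ncard ≤ 1) →
      Good G U A B {s0} {s1} {s2} t := by
    intro P' h1 h2 h3 h4
    have nP : t ∈ U \ q '' Iic k → ∀ x ∈ P', ¬ Conn G (U \ q '' Iic k) t x := fun ht x hx h =>
      hc ⟨ht, h.trans ((h2.cn x hx B h2.right).mono h1)⟩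
    have a0 : t ∈ (U \ q '' Iic k) \ P' → At G ((U \ q '' Iic k) \ P') P' t = ∅ := fun ht => by
      rw [eq_empty_iff_forall_notMem]
      rintro x ⟨hx, u, hu, a⟩
      exact nP ht.1 x hx ((hu.mono sdiff_subset).trans (Conn.adj a (hu.mem ht).1 (h1 hx)))
    have a1 : t ∈ (U \ q '' Iic k) \ P' → ∀ X, At G ((U \ q '' Iic k) \ P') X t =
        At G (U \ q '' Iic k) X t := fun ht X =>
      Subset.antisymm (At.mono sdiff_subset Subset.rfl) fun x ⟨hx, u, hu, a⟩ =>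
        ⟨hx, u, Conn.mono (fun y hy => (⟨Conn.mem hy ht.1, fun h => nP ht.1 y h hy⟩ :
          y ∈ (U \ q '' Iic k) \ P')) (Conn.comp hu), a⟩
    refine core al tp fr bd hk (by tauto) rfl h1 h2 h3 (fun ht _ => Or.inr ?_) (fun ht _ => ?_)
      fun ht => Or.inr fun i hi h5 h6 v hv h7 h8 => ?_
    · rw [a0 ht, ncard_empty]
      omega
    · rw [n1 k P' h2.right t ht, a0 ht, ncard_empty]
      omega
    · rw [n1 k P' h2.right v hv]
      refine h4 i hi (h5.elim Or.inl fun h => Or.inr ⟨h.1, At.mono sdiff_subset Subset.rfl h.2⟩)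
        (fun i' hi' h => h6 i' hi' (h.elim Or.inl fun h => Or.inr ⟨h.1, ?_⟩)) v hv h7 h8
      rw [a1 (ht.resolve_left h.1).1]
      exact h.2
  by_cases hl : ∃ i, i < k ∧ Loc G U q k t i
  swap
  · obtain ⟨P', h1, h2, h3⟩ := plain tp fr bd hk
    refine fin P' h1 h2 h3 fun i hi h4 _ v _ _ h5 => ?_
    obtain ⟨_, ⟨a, ha, rfl⟩, -⟩ := h5
    exact (hl ⟨i, lt_of_lt_of_le ha.1 ha.2, h4⟩).elim
  have l1 := Nat.find_spec hl
  have l2 : ∀ i < Nat.find hl, ¬ Loc G U q k t i := fun i hi h =>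
    Nat.find_min hl hi ⟨lt_trans hi l1.1, h⟩
  generalize Nat.find hl = i0 at l1 l2
  have d : Disjoint (q '' Ioc i0 k) ({s0} ∪ q '' Iic i0) := by
    refine disjoint_union_right.2 ⟨disjoint_singleton_right.2 ?_, bd.pa.disj
      (fun a ha => le_trans ha.2 hk.le) (fun a (ha : a ≤ i0) => by omega)
      fun a ha h => not_lt.2 h ha.1⟩
    rintro ⟨a, ha, e⟩
    exact s0U fr (e ▸ bd.sub a (le_trans ha.2 hk.le))
  obtain ⟨P', h1, h2, h3⟩ := tp G _ _ _ _ _ _ s0 (card_lt bd k)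
    (frame fr bd hk1 (Z1 := q '' Ioc i0 k) (Z2 := {s0} ∪ q '' Iic i0)
      ((image_mono Ioc_subset_Iic_self).trans subset_union_right)
      (union_subset_union_right _ (image_mono (Iic_subset_Iic.2 l1.1.le)))
      (Or.inr ⟨d, q (i0 + 1), ⟨i0 + 1, ⟨Nat.lt_succ_self _, l1.1⟩, rfl⟩, q i0,
        Or.inr ⟨i0, le_refl i0, rfl⟩, (bd.pa.adj i0 (by omega)).symm⟩)
      (bd.pa.cn ordConnected_Ioc fun a ha => le_trans ha.2 hk.le) (cz i0 l1.1.le)
      ⟨k, ⟨l1.1, le_refl k⟩, rfl⟩ (Or.inl rfl)) (Or.inl fun h => s0U fr h.1)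
  unfold cnt at h3
  rw [sdiff_eq_left.2 d.symm] at h3
  refine fin P' h1 h2 (fun v hv => ?_) fun i _ h4 h5 v hv h6 h7 => ?_
  · have h4 := (h3 v hv).1
    rw [tc_neg (n0 k P' h2.right v hv)]
    by_cases h5 : (At G ((U \ q '' Iic k) \ P') (q '' Iic k) v).Nonempty
    · rw [tc_pos h5]
      obtain ⟨_, ⟨a, ha, rfl⟩, h6⟩ := h5
      rcases Nat.lt_or_ge i0 a with h | h
      · rw [tc_pos (Z := q '' Ioc i0 k) ⟨_, ⟨a, ⟨h, ha⟩, rfl⟩, h6⟩] at h4
        omega
      · rw [tc_pos (Z := {s0} ∪ q '' Iic i0) ⟨_, Or.inr ⟨a, h, rfl⟩, h6⟩] at h4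
        omega
    · rw [tc_neg h5]
      omega
  · obtain rfl : i = i0 := le_antisymm (not_lt.1 fun h => h5 i0 h l1.2) (not_lt.1 fun h => l2 i h h4)
    have h8 := (h3 v hv).1
    rw [tc_pos h7, tc_pos (h6.mono (At.mono Subset.rfl subset_union_right))] at h8
    omega

end Ct

theorem ct : StmtCT := by
  intro al V _ _ G U A B s0 s1 s2 t q m j tp fr nh bd h
  rcases h with h | ⟨e, h | h⟩ | h
  · exact Ct.caseOut al tp fr bd h
  · exact Ct.caseOn al tp fr bd e h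
  · by_cases h1 : t ∈ U
    · by_cases h2 : t ∈ q '' Iic m
      · exact Ct.caseOn al tp fr bd e h2
      · exact Ct.caseHang al tp fr nh bd e h1 h2 h
    · exact Ct.caseOut al tp fr bd h1
  · exact Ct.caseEmpty al tp fr bd h

end Pool.Agent.MP_856573_co.H74
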